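import Pool.Agent.helper7.FI2.SpecH2

/-!
# Project fi2 (MP_baa4d7_al), block H: row HLA (the interface)
-/

set_option autoImplicit false

namespace Pool.Agent.FI2

open Pool.Agent.helper58.DC Pool.Agent.DI Pool.Agent.GR Pool.Agent.OB Pool.Agent.DR Pool.Agent.FI

theorem HLA_aux (hLEP : LEP_stmt) (hLGG : LGG_stmt) (hHLG : HLG_stmt)
    (p : ℕ) (M : Ideal (integralClosure ℤ ℂ)) (D : Type) [CommGroup D] [Fintype D]
    (X : Type) [Fintype X] (Z : Subgroup D) (I : Subgroup (MulAut D)) (β d : X → D → ℂ) (n : D → ℤ)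
    (h : LAD p M Z I β d n) (hZ : Z = ⊥) (hI : Nat.card I < p ^ 2) (hI2 : (Nat.card I + 1) ^ 2 ≤ Nat.card D)
    (χ : X) (hn : ∑ᶠ u ∈ {u : D | u ≠ 1}, ‖d χ u‖ ^ 2 < (Nat.card I : ℝ) * Nat.card D)
    (u : D) (hu : u ≠ 1) : ¬ InM M (d χ u) := by
  let : Fintype (D →* ℂˣ) := Fintype.ofFinite _
  have hd : LD p M Z I β d n :=
    { set := h.set
      odd := h.odd
      pg := h.pg
      ne := h.ne
      cop := h.cop
      fz := h.fz
      fr := h.fr
      h1 := h.h1
      h2 := h.h2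
      h3a := h.h3a
      h3b := h.h3b
      h3c := h.h3c
      h3d := h.h3d
      h4a := by
        intro u a hu ha
        have h1 := h.h4a u a hu ha
        rwa [finsum_eq_sum_of_fintype] at h1
      h4b := by
        intro u hu
        have h1 := h.h4b u hu
        rwa [finsum_eq_sum_of_fintype] at h1
      h5 := h.h5
      h6 := h.h6
      h7 := h.h7 }
  obtain ⟨δ, ε, hs⟩ := hLEP p M D X Z I β d n hd
  have hG : LG p Z I (lg Z ε d) := hLGG p M D X Z I β d n δ ε hd hs
  have hN : ∑ u, ‖lg Z ε d χ u‖ ^ 2 < (Nat.card I : ℝ) * Nat.card D := by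
    refine lt_of_eq_of_lt ?_ hn
    rw [finsum_mem_def, finsum_eq_sum_of_fintype]
    refine Finset.sum_congr rfl fun u _ => ?_
    by_cases hu : u ∈ Z
    · have hu1 : u = 1 := by
        rwa [hZ, Subgroup.mem_bot] at hu
      rw [lg_of_mem hu, Set.indicator_of_notMem (fun h2 : u ∈ {u : D | u ≠ 1} => h2 hu1)]
      simp
    · have hu1 : u ≠ 1 := by
        rwa [hZ, Subgroup.mem_bot] at hu
      rw [lg_of_not_mem hu, Set.indicator_of_mem (show u ∈ {u : D | u ≠ 1} from hu1)]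
      rcases hs.pm u with h2 | h2 <;> rw [h2] <;> simp
  intro hin
  refine hHLG p M D X Z I (lg Z ε d) h.set hG hZ hI hI2 χ hN u hu ?_
  have hu' : u ∉ Z := by
    rw [hZ, Subgroup.mem_bot]
    exact hu
  rw [lg_of_not_mem hu']
  exact hin.mul_left h.set (IntAt.intCast h.set _)

theorem HLA (hLEP : LEP_stmt) (hLGG : LGG_stmt) (hHLG : HLG_stmt) : HLA_stmt := by
  intro p M D _ _ X _ Z I β d n h hZ hI hI2 χ hn u hu
  let : Fintype D := Fintype.ofFinite D
  let : Fintype X := Fintype.ofFinite X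
  exact @HLA_aux hLEP hLGG hHLG p M D { (inferInstance : Group D) with mul_comm := h.com } _ X _
    Z I β d n h hZ hI hI2 χ hn u hu

end Pool.Agent.FI2
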